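import Pool.Agent.H498.EQ.VFin

/-!
# The Breuil-Mezard conjecture for `GL_d` and very ramified types

`K / ℚ_p` finite (for example `K = ℚ_p`, `k = 𝔽_p`, `S` one point) with ring of integers `O`, uniformizer `ϖ` and
residue field `k` (`q` elements), `d = n + 1`, `S = Hom(K, E)`, `ρ̄ : G_K → GL_d(𝔽)`. We fix an embedding `ι` of `k`
into an algebraically closed field `F` of characteristic `p`; the embedding `σ ∈ S` induces the residue embedding
`x ↦ ι(x) ^ (p ^ κ σ)`. `t : Fˣ → ℂˣ` is an injective homomorphism (Brauer lift).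

* `h : Wt S d`, `Dom h`: the regular labelled Hodge-Tate weights `h_{σ,1} > ... > h_{σ,d}`, `h = λ + (d - 1, ..., 0)`
  for the Hodge type `λ`. `s h` is the Weyl character of highest weight `λ` (`IsWeyl`),
  `wdim h = ∏_σ ∏_{i<j} (h_{σ,i} - h_{σ,j}) / (j - i)` is the dimension of `W(λ)`.
* `D`: the Serre weights, irreducible (`IrrRep`), pairwise non-isomorphic (`IsoRep`) and all of them (`hcomp`), with
  their Brauer characters `D.br w`. `mult h w` is the multiplicity of the Serre weight `w` in the reduction of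
  `W(λ) ⊗ σ` (`IsMult`), if `θ` is the Brauer character of the reduction of `σ` (`IsRed`).
* `IsVeryRam ϖ π₀ p θ δ`: `θ` is the Brauer character of the reduction of a very ramified irreducible smooth
  representation `σ` of `GL_d(O)` of dimension `δ`: there are `r ≥ 1`, a character `χ` of `Oˣ`, a nontrivial additive
  character `Ψ` of `k`, a matrix `β` over `k` with one Jordan block (and eigenvalue in `k`), and a nonzero vector `v`
  such that `σ(g) = χ(det g)` for `g ≡ 1 mod ϖ ^ (r + 1)` and
  `σ(g) v = χ(det g) Ψ(tr (β X)) v` for `g = 1 + ϖ ^ r X`. These are the `σ(τ)` of many totally ramified inertial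
  types `τ`, for example of the types of the supercuspidal representations of depth `r - 1 / d`: they contain a
  minimal stratum `ϖ ^ (-r) b`, where `b` generates the radical of an Iwahori order, so that `b` modulo `ϖ` is nilpotent
  with one Jordan block (for `d = 2` and `r = 1` these are the simple supercuspidal representations); this remark is
  not used.
* `IsType ϖ π₀ p θ δ l`: `θ` is the Brauer character of the reduction of any irreducible smooth representation of
  `GL_d(O)` of dimension `δ`, no twist of which is trivial on the `g ≡ 1 mod ϖ ^ l'` for an `l' < l`.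
* `HasChar`, `WtChar`: the scalar matrices over `k` act through the character `ω`; `SameChar`, `SamePair`: the two
  characters are equal.

**Theorem.** Let `r_w` be the multiplicity of `w` in `F[GL_d(k)]` (the dimension of the projective cover).

(1) For very ramified types and all Hodge types the multiplicities are exactly proportional to the dimension:
`mult h w = (q - 1) r_w dim W(λ) dim σ / |GL_d(k)|` if the central characters agree, and `mult h w = 0` otherwise.

(2) Let `T` be a set of very ramified types. The conjecture Q1 for `ρ̄` and all pairs `(λ, τ)`, `τ ∈ T`, holds if and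
only if the multiplicities `e(λ, τ)` are proportional to the dimensions:
`e(λ, τ) = (q - 1) A(ω) dim W(λ) dim σ(τ) / |GL_d(k)|`, with integers `A(ω)` which depend only on the central
character `ω` of the pair, and which are sums of numbers `r_w` for weights `w` with central character `ω`.

(3) For integers `z_w` (for example the `μ_w(ρ̄)` if Q1 holds for all pairs), the quotient of `∑ mult h w z_w` and
the dimension for any pair `(λ', τ')` differs from its constant value for very ramified types with the same central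
character by at most `C / ((h'_{σ,1} - h'_{σ,d}) q ^ ⌊l' / 4⌋)`. So if Q1 holds,
`e(λ, τ) / (dim W(λ) dim σ(τ))` for very ramified `τ` is the limit of `e(λ', 1) / dim W(λ')` (crystalline lifts,
`λ' → ∞`) and of `e(0, τ') / dim σ(τ')` (ramification of `τ'` to infinity).
-/

set_option autoImplicit false

namespace Pool.Agent.Results.MP_7b0b46_nt.VeryRamifiedTypes

open Pool.Agent.N28.BM Pool.Agent.H498.BT Pool.Agent.H498.EQ Matrix

open scoped Classical in
/-- **The Breuil-Mezard conjecture for very ramified types.** -/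
theorem result {k F : Type} [Field k] [Fintype k] [Field F] [IsAlgClosed F] (ι : k →+* F)
    {p f : ℕ} [Fact p.Prime] [CharP F p]
    {S : Type} [Fintype S] [DecidableEq S] {n : ℕ} (κ : S → ZMod f)
    (t : Fˣ →* ℂˣ) (ht : Function.Injective t)
    (s : Wt S (n + 1) → P S (n + 1)) (hs : IsWeyl s) (D : SerreWeights k F (n + 1) t)
    (hirr : ∀ w, IrrRep (D.rep w)) (hiso : ∀ w w', w ≠ w' → ¬ IsoRep (D.rep w) (D.rep w'))
    (hcomp : ∀ (N : ℕ) (τ : GL (Fin (n + 1)) k →* GL (Fin N) F), IrrRep τ → ∃ w, IsoRep (D.rep w) τ)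
    {O : Type} [CommRing O] [IsDomain O] [IsDiscreteValuationRing O] {ϖ : O} (hϖ : Irreducible ϖ)
    (π₀ : O →+* k) (hπ₀ : Function.Surjective π₀) :
    ∃ r : D.W → ℕ, (∀ w, 0 < r w) ∧
      (∀ g : GL (Fin (n + 1)) k, ¬ p ∣ orderOf g →
        ∑ w, (r w : ℂ) * D.br w g = if g = 1 then (Nat.card (GL (Fin (n + 1)) k) : ℂ) else 0) ∧
      (∀ (θ : GL (Fin (n + 1)) k → ℂ) (δ : ℕ), IsVeryRam ϖ π₀ p θ δ →
        ∀ mult : Wt S (n + 1) → D.W → ℕ, IsMult ι (p := p) κ t s D θ mult →
        ∀ h : Wt S (n + 1), Dom h → ∀ w : D.W,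
          (¬ SameChar t D (mult h) w → mult h w = 0) ∧
          (SameChar t D (mult h) w → (mult h w : ℝ) * Nat.card (GL (Fin (n + 1)) k) =
            ((Fintype.card k : ℝ) - 1) * r w * (wdim h * δ))) ∧
      (∀ (T : Type) (θ : T → GL (Fin (n + 1)) k → ℂ) (δ : T → ℕ), (∀ τ, IsVeryRam ϖ π₀ p (θ τ) (δ τ)) →
        ∀ mult : T → Wt S (n + 1) → D.W → ℕ, (∀ τ, IsMult ι (p := p) κ t s D (θ τ) (mult τ)) →
        ∀ e : T → Wt S (n + 1) → ℕ,
          (∃ μ : D.W → ℕ, ∀ τ h, Dom h → e τ h = ∑ w, mult τ h w * μ w) ↔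
          ∃ A : (kˣ →* ℂˣ) → ℕ, (∀ ω, A ω ∈ AddSubmonoid.closure {x | ∃ w, WtChar t D w ω ∧ x = r w}) ∧
            ∀ τ h, Dom h → ∀ ω, HasChar t D (mult τ h) ω →
              (e τ h : ℝ) * Nat.card (GL (Fin (n + 1)) k) = ((Fintype.card k : ℝ) - 1) * A ω * (wdim h * δ τ)) ∧
      ∀ z : D.W → ℤ, ∃ C : ℝ, 0 < C ∧
        ∀ (θ : GL (Fin (n + 1)) k → ℂ) (δ : ℕ), IsVeryRam ϖ π₀ p θ δ →
        ∀ mult : Wt S (n + 1) → D.W → ℕ, IsMult ι (p := p) κ t s D θ mult →
        ∀ (θ' : GL (Fin (n + 1)) k → ℂ) (δ' l' : ℕ), IsType ϖ π₀ p θ' δ' l' →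
        ∀ mult' : Wt S (n + 1) → D.W → ℕ, IsMult ι (p := p) κ t s D θ' mult' →
        ∀ h h' : Wt S (n + 1), Dom h → Dom h' → SamePair t D (mult h) (mult' h') → ∀ σ : S,
          |(∑ w, (mult' h' w : ℝ) * z w) / (wdim h' * δ') - (∑ w, (mult h w : ℝ) * z w) / (wdim h * δ)| *
            (((h' σ 0 - h' σ (Fin.last n) : ℤ) : ℝ) * (Fintype.card k : ℝ) ^ (l' / 4)) ≤ C := by
  have hpk : CharP k p := by
    refine ⟨fun x => ?_⟩
    rw [← CharP.cast_eq_zero_iff F p, ← map_natCast ι, map_eq_zero]
  obtain ⟨r, hr0, hr1⟩ := exists_reg p t ht D.dim D.rep hirr hiso hcomp D.br D.br_eq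
  have hr : ∀ g : GL (Fin (n + 1)) k, ¬ p ∣ orderOf g →
      ∑ w, (r w : ℂ) * D.br w g = if g = 1 then (Nat.card (GL (Fin (n + 1)) k) : ℂ) else 0 := by
    intro g hg
    rw [hr1 g hg]
    split_ifs <;> rfl
  exact ⟨r, hr0, hr,
    fun θ δ hθ mult hmult h hh w => vr_mult ι κ t ht s hs D hirr hiso hϖ π₀ hπ₀ r hr hθ hmult h hh w,
    fun T θ δ hθ mult hmult e => vr_q1 ι κ t ht s hs D hirr hiso hϖ π₀ hπ₀ r hr θ δ hθ mult hmult e,
    fun z => vr_limit ι κ t ht s hs D hirr hiso hϖ π₀ hπ₀ r hr z⟩

end Pool.Agent.Results.MP_7b0b46_nt.VeryRamifiedTypes
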